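import Mathlib

/-!
# The monomial test fails for the rescaled operator of a Hermite diagonal operator

We exhibit an explicit Hermite diagonal operator `T = ∑ Q_k D^k` with positive eigenvalues
`γ_n = n² + 7 + 5 (-1)^n n` such that, for `W = ∑ 2^{-k} Q_k D^k`, every `W[x^n]` is hyperbolic,
while `W` is not a hyperbolicity preserver (and `T[x^3]` is not hyperbolic).
-/

namespace Pool.Agent.Results.MP_fcf092_an.MonomialTest

open Polynomial

noncomputable section

/-- A real polynomial is hyperbolic if it is zero or all its complex zeros are real. -/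
def Hyperbolic (p : ℝ[X]) : Prop :=
  p = 0 ∨ ∀ z : ℂ, aeval z p = 0 → z.im = 0

/-- The Hermite polynomials (physicists' normalisation), by the recursion
`H_{n+1} = 2 x H_n - H_n'`; `hermitePoly_eval` below is the Rodrigues formula. -/
def hermitePoly : ℕ → ℝ[X]
  | 0 => 1
  | n + 1 => 2 * X * hermitePoly n - derivative (hermitePoly n)

/-- The value at `p` of the differential operator `∑_k Q_k D^k`. -/
def diffOp (Q : ℕ → ℝ[X]) (p : ℝ[X]) : ℝ[X] :=
  ∑ k ∈ Finset.range (p.natDegree + 1), Q k * derivative^[k] p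

/-- Sanity check: the Rodrigues formula `H_n(x) = (-1)^n e^{x²} D^n e^{-x²}`. -/
theorem hermitePoly_eval (n : ℕ) (x : ℝ) :
    (hermitePoly n).eval x =
      (-1) ^ n * Real.exp (x ^ 2) * iteratedDeriv n (fun y => Real.exp (-y ^ 2)) x := by
  have key : ∀ n : ℕ, iteratedDeriv n (fun y : ℝ => Real.exp (-y ^ 2)) =
      fun y => (-1) ^ n * (hermitePoly n).eval y * Real.exp (-y ^ 2) := by
    intro n
    induction n with
    | zero => funext y; simp [hermitePoly]
    | succ n ih =>
      rw [iteratedDeriv_succ, ih]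
      funext y
      have h1 : HasDerivAt (fun y : ℝ => (-1 : ℝ) ^ n * (hermitePoly n).eval y)
          ((-1) ^ n * (derivative (hermitePoly n)).eval y) y :=
        ((hermitePoly n).hasDerivAt y).const_mul _
      have h2 : HasDerivAt (fun y : ℝ => Real.exp (-y ^ 2))
          (Real.exp (-y ^ 2) * (-(2 * y))) y := by
        have h3 : HasDerivAt (fun y : ℝ => -y ^ 2) (-(2 * y)) y := by
          have h := (hasDerivAt_pow 2 y).neg
          simp only [Nat.cast_ofNat, Nat.add_one_sub_one, pow_one] at h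
          exact h
        exact h3.exp
      have h4 := (h1.mul h2).deriv
      have h5 : (fun y : ℝ => (-1 : ℝ) ^ n * (hermitePoly n).eval y * Real.exp (-y ^ 2)) =
          (fun y : ℝ => (-1 : ℝ) ^ n * (hermitePoly n).eval y) *
            fun y : ℝ => Real.exp (-y ^ 2) := rfl
      rw [h5, h4]
      simp only [hermitePoly, eval_sub, eval_mul, eval_ofNat, eval_X]
      ring
  rw [key]
  have h6 : Real.exp (x ^ 2) * Real.exp (-x ^ 2) = 1 := by
    rw [← Real.exp_add]; simp
  have h7 : ((-1 : ℝ) ^ n) * (-1) ^ n = 1 := by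
    rw [← mul_pow]; simp
  have h8 : (-1 : ℝ) ^ n * Real.exp (x ^ 2) * ((-1) ^ n * (hermitePoly n).eval x *
      Real.exp (-x ^ 2)) = ((-1 : ℝ) ^ n * (-1) ^ n) * (Real.exp (x ^ 2) * Real.exp (-x ^ 2)) *
      (hermitePoly n).eval x := by ring
  rw [h8, h6, h7]; ring

/-! ### Hermite polynomials: differential equation and parity -/

theorem derivative_hermitePoly (n : ℕ) :
    derivative (hermitePoly (n + 1)) = C (2 * ((n : ℝ) + 1)) * hermitePoly n := by
  induction n with
  | zero =>
    simp [hermitePoly, show (2 : ℝ[X]) = C 2 from rfl]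
  | succ n ih =>
    have h1 : hermitePoly (n + 1 + 1) =
        2 * X * hermitePoly (n + 1) - derivative (hermitePoly (n + 1)) := rfl
    have h2 : derivative (derivative (hermitePoly (n + 1))) =
        C (2 * ((n : ℝ) + 1)) * derivative (hermitePoly n) := by
      rw [ih]; simp
    have h3 : hermitePoly (n + 1) = 2 * X * hermitePoly n - derivative (hermitePoly n) := rfl
    have h4 : C (2 * (((n + 1 : ℕ) : ℝ) + 1)) = (2 : ℝ[X]) + C (2 * ((n : ℝ) + 1)) := by
      rw [show (2 : ℝ[X]) = C 2 from rfl, ← C_add]; congr 1; push_cast; ring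
    rw [h1, h4]
    simp only [derivative_sub, derivative_mul, derivative_X, derivative_ofNat]
    rw [h2]
    have h5 : derivative (hermitePoly (n + 1)) = C (2 * ((n : ℝ) + 1)) * hermitePoly n := ih
    rw [h5]
    linear_combination (-C (2 * ((n : ℝ) + 1))) * h3

/-- The operator `N = x D - D²/2`. -/
def opN (p : ℝ[X]) : ℝ[X] := X * derivative p - C (1 / 2) * derivative (derivative p)

theorem opN_hermitePoly (n : ℕ) : opN (hermitePoly n) = C (n : ℝ) * hermitePoly n := by
  cases n with
  | zero => simp [opN, hermitePoly]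
  | succ n =>
    have h3 : hermitePoly (n + 1) = 2 * X * hermitePoly n - derivative (hermitePoly n) := rfl
    have h2 : derivative (derivative (hermitePoly (n + 1))) =
        C (2 * ((n : ℝ) + 1)) * derivative (hermitePoly n) := by
      rw [derivative_hermitePoly]; simp
    rw [opN, h2, derivative_hermitePoly]
    have h4 : C (2 * ((n : ℝ) + 1)) = (2 : ℝ[X]) * C (((n + 1 : ℕ) : ℝ)) := by
      rw [show (2 : ℝ[X]) = C 2 from rfl, ← C_mul]; congr 1; push_cast; ring
    have h5 : C (1 / 2 : ℝ) * (2 : ℝ[X]) = 1 := by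
      rw [show (2 : ℝ[X]) = C 2 from rfl, ← C_mul]; norm_num
    rw [h4]
    linear_combination (-C (((n + 1 : ℕ) : ℝ))) * h3 -
      C (((n + 1 : ℕ) : ℝ)) * derivative (hermitePoly n) * h5

theorem hermitePoly_comp_neg (n : ℕ) :
    (hermitePoly n).comp (-X) = C ((-1 : ℝ) ^ n) * hermitePoly n := by
  induction n with
  | zero => simp [hermitePoly]
  | succ n ih =>
    have h3 : hermitePoly (n + 1) = 2 * X * hermitePoly n - derivative (hermitePoly n) := rfl
    have h1 : (derivative (hermitePoly n)).comp (-X) =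
        -(C ((-1 : ℝ) ^ n) * derivative (hermitePoly n)) := by
      have h2 : derivative ((hermitePoly n).comp (-X)) =
          derivative (C ((-1 : ℝ) ^ n) * hermitePoly n) := by rw [ih]
      rw [derivative_comp] at h2
      simp only [derivative_neg, derivative_X, derivative_mul, derivative_C, zero_mul,
        zero_add] at h2
      linear_combination -h2
    rw [h3]
    simp only [sub_comp, mul_comp, X_comp, ofNat_comp]
    rw [h1, ih]
    have h4 : C ((-1 : ℝ) ^ (n + 1)) = -C ((-1 : ℝ) ^ n) := by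
      rw [pow_succ, C_mul]; simp
    rw [h4]; ring

/-! ### The operators -/

/-- Taylor's formula in the form `∑_k (c x)^k/k! D^k q = q((1+c)x)`. -/
theorem taylor_sum (q : ℝ[X]) (c : ℝ) (M : ℕ) (hM : q.natDegree < M) :
    ∑ k ∈ Finset.range M, C ((k.factorial : ℝ)⁻¹) * (C c * X) ^ k * derivative^[k] q =
      q.comp (C (1 + c) * X) := by
  apply Polynomial.funext
  intro x
  have h1 := congrArg (eval ((1 + c) * x)) (sum_taylor_eq q x)
  rw [sum_over_range' _ (by simp) M (by rw [natDegree_taylor]; exact hM)] at h1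
  simp only [eval_finsetSum, eval_mul, eval_C, eval_pow, eval_sub, eval_X, taylor_coeff] at h1
  rw [eval_comp]
  simp only [eval_finsetSum, eval_mul, eval_C, eval_X, eval_pow]
  rw [← h1]
  apply Finset.sum_congr rfl
  intro k _
  have h2 : derivative^[k] q = (k.factorial : ℝ[X]) * hasseDeriv k q := by
    rw [← factorial_smul_hasseDeriv]; simp
  rw [h2]
  simp only [eval_mul, eval_natCast]
  have h3 : (k.factorial : ℝ) ≠ 0 := by positivity
  field_simp
  ring

/-- The full operator `T = 7 + N² + 5 N∘R`, `R` the reflection `x ↦ -x`. -/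
def opT : ℝ[X] →ₗ[ℝ] ℝ[X] where
  toFun p := 7 * p + opN (opN p) + 5 * (opN p).comp (-X)
  map_add' p q := by
    simp only [opN, derivative_add, derivative_sub, derivative_mul, add_comp, sub_comp, mul_comp]
    ring
  map_smul' c p := by
    simp only [opN, smul_eq_C_mul, derivative_add, derivative_sub, derivative_mul,
      sub_comp, mul_comp, derivative_C, zero_mul, zero_add, C_comp, RingHom.id_apply]
    ring

/-- The rescaled operator, in closed form. -/
def opW : ℝ[X] →ₗ[ℝ] ℝ[X] where
  toFun p := 7 * p + C (1 / 2) * X * derivative p +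
    C (1 / 4) * (X ^ 2 - 1) * derivative^[2] p - C (1 / 8) * X * derivative^[3] p +
    C (1 / 64) * derivative^[4] p - C (5 / 2) * X * C ((derivative p).eval 0) -
    C (5 / 8) * C ((derivative^[2] p).eval 0)
  map_add' p q := by
    simp only [Function.iterate_succ, Function.comp, Function.iterate_zero, id,
      derivative_add, eval_add, C_add]
    ring
  map_smul' c p := by
    simp only [Function.iterate_succ, Function.comp, Function.iterate_zero, id,
      smul_eq_C_mul, derivative_mul, derivative_C, zero_mul, zero_add, eval_mul, eval_C, C_mul,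
      RingHom.id_apply]
    ring

theorem opW_apply (p : ℝ[X]) : opW p = 7 * p + C (1 / 2) * X * derivative p +
    C (1 / 4) * (X ^ 2 - 1) * derivative^[2] p - C (1 / 8) * X * derivative^[3] p +
    C (1 / 64) * derivative^[4] p - C (5 / 2) * X * C ((derivative p).eval 0) -
    C (5 / 8) * C ((derivative^[2] p).eval 0) := rfl

/-- Eigenvalues. -/
def gam (n : ℕ) : ℝ := (n : ℝ) ^ 2 + 7 + 5 * (-1) ^ n * n

theorem gam_pos (n : ℕ) : 0 < gam n := by
  unfold gam
  rcases Nat.even_or_odd n with h | h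
  · rw [h.neg_one_pow]; positivity
  · rw [h.neg_one_pow]; nlinarith [sq_nonneg ((n : ℝ) - 5 / 2)]

theorem opT_hermitePoly (n : ℕ) : opT (hermitePoly n) = gam n • hermitePoly n := by
  have h1 : opN (opN (hermitePoly n)) = C ((n : ℝ) ^ 2) * hermitePoly n := by
    rw [opN_hermitePoly]
    have : opN (C (n : ℝ) * hermitePoly n) = C (n : ℝ) * opN (hermitePoly n) := by
      simp only [opN, derivative_mul, derivative_C, zero_mul, zero_add]; ring
    rw [this, opN_hermitePoly, pow_two, C_mul]; ring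
  change 7 * hermitePoly n + opN (opN (hermitePoly n)) + 5 * (opN (hermitePoly n)).comp (-X) = _
  rw [h1, opN_hermitePoly, mul_comp, C_comp, hermitePoly_comp_neg, smul_eq_C_mul]
  have h2 : C (gam n) = C ((n : ℝ) ^ 2) + 7 + 5 * (C ((-1 : ℝ) ^ n) * C (n : ℝ)) := by
    rw [show (7 : ℝ[X]) = C 7 from rfl, show (5 : ℝ[X]) = C 5 from rfl]
    simp only [← C_mul, ← C_add]
    congr 1
    unfold gam; ring
  rw [h2]; ring

/-- The reflection coefficients. -/
def refl (k : ℕ) : ℝ[X] := C ((k.factorial : ℝ)⁻¹) * (C (-2) * X) ^ k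

/-- Finite-order part of the coefficient sequence. -/
def baseQ : ℕ → ℝ[X]
  | 0 => 7
  | 1 => X
  | 2 => X ^ 2 - 1
  | 3 => -X
  | 4 => C (1 / 4)
  | _ + 5 => 0

/-- First part of the reflection contribution. -/
def shiftOne : ℕ → ℝ[X]
  | 0 => 0
  | k + 1 => -X * refl k

/-- Second part of the reflection contribution. -/
def shiftTwo : ℕ → ℝ[X]
  | 0 => 0
  | 1 => 0
  | k + 2 => -C (1 / 2) * refl k

/-- The coefficients of `T`. -/
def coefQ (k : ℕ) : ℝ[X] := baseQ k + 5 * (shiftOne k + shiftTwo k)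

theorem diffOp_eq (Q : ℕ → ℝ[X]) (p : ℝ[X]) (M : ℕ) (hM : p.natDegree < M) :
    diffOp Q p = ∑ k ∈ Finset.range M, Q k * derivative^[k] p := by
  unfold diffOp
  apply Finset.sum_subset
  · intro k hk
    simp only [Finset.mem_range] at hk ⊢
    omega
  · intro k _ hk
    simp only [Finset.mem_range, not_lt] at hk
    rw [iterate_derivative_eq_zero (by omega), mul_zero]

theorem natDegree_iter_lt (p : ℝ[X]) (j M : ℕ) (hM : p.natDegree < M) :
    (derivative^[j] p).natDegree < M :=
  lt_of_le_of_lt ((natDegree_iterate_derivative p j).trans (Nat.sub_le _ _)) hM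

theorem sum_base (c : ℕ → ℝ) (p : ℝ[X]) (M : ℕ) :
    ∑ k ∈ Finset.range (5 + M), C (c k) * baseQ k * derivative^[k] p =
      C (c 0) * 7 * p + C (c 1) * X * derivative p + C (c 2) * (X ^ 2 - 1) * derivative^[2] p -
      C (c 3) * X * derivative^[3] p + C (c 4) * C (1 / 4) * derivative^[4] p := by
  rw [Finset.sum_range_add]
  have h1 : ∑ x ∈ Finset.range M, C (c (5 + x)) * baseQ (5 + x) * derivative^[5 + x] p = 0 := by
    apply Finset.sum_eq_zero
    intro x _
    rw [add_comm 5 x]
    simp [baseQ]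
  rw [h1]
  simp only [Finset.sum_range_succ, Finset.sum_range_zero, baseQ, Function.iterate_zero, id,
    Function.iterate_one]
  ring

theorem refl_scale (r : ℝ) (k : ℕ) :
    C (r ^ k) * refl k = C ((k.factorial : ℝ)⁻¹) * (C (-2 * r) * X) ^ k := by
  unfold refl
  rw [mul_pow, mul_pow, ← C_pow, ← C_pow, mul_pow, C_mul]
  ring

theorem sum_shiftOne (r : ℝ) (p : ℝ[X]) (M : ℕ) (hM : p.natDegree < M) :
    ∑ k ∈ Finset.range (5 + M), C (r ^ k) * shiftOne k * derivative^[k] p =
      -C r * X * (derivative p).comp (C (1 - 2 * r) * X) := by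
  rw [show 5 + M = (4 + M) + 1 by ring, Finset.sum_range_succ']
  have h1 := taylor_sum (derivative p) (-2 * r) (4 + M)
    (by have := natDegree_iter_lt p 1 M hM; simp only [Function.iterate_one] at this; omega)
  rw [show 1 - 2 * r = 1 + -2 * r by ring, ← h1, Finset.mul_sum]
  simp only [shiftOne, mul_zero, zero_mul, add_zero]
  apply Finset.sum_congr rfl
  intro k _
  rw [← refl_scale, pow_succ, C_mul, Function.iterate_succ_apply]
  ring

theorem sum_shiftTwo (r : ℝ) (p : ℝ[X]) (M : ℕ) (hM : p.natDegree < M) :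
    ∑ k ∈ Finset.range (5 + M), C (r ^ k) * shiftTwo k * derivative^[k] p =
      -C (1 / 2) * C (r ^ 2) * (derivative^[2] p).comp (C (1 - 2 * r) * X) := by
  rw [show 5 + M = (3 + M) + 1 + 1 by ring, Finset.sum_range_succ', Finset.sum_range_succ']
  have h1 := taylor_sum (derivative^[2] p) (-2 * r) (3 + M)
    (by have := natDegree_iter_lt p 2 M hM; omega)
  rw [show 1 - 2 * r = 1 + -2 * r by ring, ← h1, Finset.mul_sum]
  simp only [shiftTwo, mul_zero, zero_mul, add_zero, zero_add]
  apply Finset.sum_congr rfl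
  intro k _
  rw [← refl_scale, ← Function.iterate_add_apply, add_assoc, pow_add, C_mul]
  ring

theorem opT_eq (p : ℝ[X]) : opT p = diffOp coefQ p := by
  rw [diffOp_eq coefQ p (5 + (p.natDegree + 1)) (by omega)]
  have h0 := sum_base (fun _ => 1) p (p.natDegree + 1)
  have h1 := sum_shiftOne 1 p (p.natDegree + 1) (by omega)
  have h2 := sum_shiftTwo 1 p (p.natDegree + 1) (by omega)
  simp only [one_pow, C_1, one_mul] at h0 h1 h2
  have h3 : ∀ k, coefQ k * derivative^[k] p = baseQ k * derivative^[k] p +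
      (5 * (shiftOne k * derivative^[k] p) + 5 * (shiftTwo k * derivative^[k] p)) := by
    intro k; unfold coefQ; ring
  simp only [h3]
  rw [Finset.sum_add_distrib, Finset.sum_add_distrib, ← Finset.mul_sum, ← Finset.mul_sum,
    h0, h1, h2]
  have h4 : (C (1 - 2 * 1 : ℝ) : ℝ[X]) * X = -X := by
    rw [show (1 - 2 * 1 : ℝ) = -1 by norm_num]; simp
  rw [h4]
  change 7 * p + opN (opN p) + 5 * (opN p).comp (-X) = _
  have h5 : (C (1 / 2) : ℝ[X]) * C (1 / 2) = C (1 / 4) := by
    rw [← C_mul]; norm_num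
  have h6 : (C (1 / 2) : ℝ[X]) * 2 = 1 := by
    rw [show (2 : ℝ[X]) = C 2 from rfl, ← C_mul]; norm_num
  simp only [opN, Function.iterate_succ, Function.comp, Function.iterate_zero, id,
    derivative_sub, derivative_mul, derivative_C, derivative_X, derivative_add, sub_comp, mul_comp,
    X_comp, C_comp, zero_mul, zero_add, one_mul]
  linear_combination (-X * derivative (derivative (derivative p)) -
    derivative (derivative p)) * h6 +
    derivative (derivative (derivative (derivative p))) * h5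

theorem opW_eq (p : ℝ[X]) : opW p = diffOp (fun k => C ((1 / 2 : ℝ) ^ k) * coefQ k) p := by
  rw [diffOp_eq _ p (5 + (p.natDegree + 1)) (by omega)]
  have h0 := sum_base (fun k => (1 / 2 : ℝ) ^ k) p (p.natDegree + 1)
  have h1 := sum_shiftOne (1 / 2) p (p.natDegree + 1) (by omega)
  have h2 := sum_shiftTwo (1 / 2) p (p.natDegree + 1) (by omega)
  have h3 : ∀ k, C ((1 / 2 : ℝ) ^ k) * coefQ k * derivative^[k] p =
      C ((1 / 2 : ℝ) ^ k) * baseQ k * derivative^[k] p +
      (5 * (C ((1 / 2 : ℝ) ^ k) * shiftOne k * derivative^[k] p) +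
        5 * (C ((1 / 2 : ℝ) ^ k) * shiftTwo k * derivative^[k] p)) := by
    intro k; unfold coefQ; ring
  simp only [h3]
  rw [Finset.sum_add_distrib, Finset.sum_add_distrib, ← Finset.mul_sum, ← Finset.mul_sum,
    h0, h1, h2]
  have h4 : (C (1 - 2 * (1 / 2) : ℝ) : ℝ[X]) * X = 0 := by
    rw [show (1 - 2 * (1 / 2) : ℝ) = 0 by norm_num]; simp
  rw [h4, comp_zero, comp_zero]
  rw [opW_apply]
  have e0 : (C ((1 / 2 : ℝ) ^ 0) : ℝ[X]) = 1 := by simp
  have e1 : (C ((1 / 2 : ℝ) ^ 1) : ℝ[X]) = C (1 / 2) := by norm_num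
  have e2 : (C ((1 / 2 : ℝ) ^ 2) : ℝ[X]) = C (1 / 4) := by norm_num
  have e3 : (C ((1 / 2 : ℝ) ^ 3) : ℝ[X]) = C (1 / 8) := by norm_num
  have e4 : (C ((1 / 2 : ℝ) ^ 4) : ℝ[X]) * C (1 / 4) = C (1 / 64) := by
    rw [← C_mul]; norm_num
  have e5 : (5 : ℝ[X]) * C (1 / 2) = C (5 / 2) := by
    rw [show (5 : ℝ[X]) = C 5 from rfl, ← C_mul]; norm_num
  have e6 : (5 : ℝ[X]) * (C (1 / 2) * C ((1 / 2 : ℝ) ^ 2)) = C (5 / 8) := by
    rw [show (5 : ℝ[X]) = C 5 from rfl, ← C_mul, ← C_mul]; norm_num
  rw [e0, e1, e3, ← e4, ← e5, ← e6, e2]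
  ring

/-! ### Values of `W` on monomials -/

theorem opW_X_pow (m : ℕ) : opW (X ^ (m + 4)) =
    X ^ m * (C ((((m : ℝ) + 4) ^ 2 + ((m : ℝ) + 4) + 28) / 4) * X ^ 4 -
      C (((m : ℝ) + 4) ^ 2 * ((m : ℝ) + 3) / 8) * X ^ 2 +
      C (((m : ℝ) + 4) * ((m : ℝ) + 3) * ((m : ℝ) + 2) * ((m : ℝ) + 1) / 64)) := by
  rw [opW_apply]
  have d1 : derivative (X ^ (m + 4) : ℝ[X]) = C ((m : ℝ) + 4) * X ^ (m + 3) := by
    rw [derivative_X_pow]; simp
  have d2 : derivative^[2] (X ^ (m + 4) : ℝ[X]) =
      C (((m : ℝ) + 4) * ((m : ℝ) + 3)) * X ^ (m + 2) := by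
    rw [Function.iterate_succ_apply', Function.iterate_one, d1, derivative_C_mul,
      derivative_X_pow, C_mul]
    simp
    ring
  have d3 : derivative^[3] (X ^ (m + 4) : ℝ[X]) =
      C (((m : ℝ) + 4) * ((m : ℝ) + 3) * ((m : ℝ) + 2)) * X ^ (m + 1) := by
    rw [Function.iterate_succ_apply', d2, derivative_C_mul,
      derivative_X_pow, C_mul (a := ((m : ℝ) + 4) * ((m : ℝ) + 3))]
    simp
    ring
  have d4 : derivative^[4] (X ^ (m + 4) : ℝ[X]) =
      C (((m : ℝ) + 4) * ((m : ℝ) + 3) * ((m : ℝ) + 2) * ((m : ℝ) + 1)) * X ^ m := by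
    rw [Function.iterate_succ_apply', d3, derivative_C_mul,
      derivative_X_pow, C_mul (a := ((m : ℝ) + 4) * ((m : ℝ) + 3) * ((m : ℝ) + 2))]
    simp
    ring
  rw [d1, d2, d3, d4]
  apply Polynomial.funext
  intro x
  simp
  ring

theorem real_of_quartic (A B Cc : ℝ) (hA : 0 < A) (hB : 0 ≤ B) (hC : 0 ≤ Cc)
    (hD : 4 * A * Cc ≤ B ^ 2) (z : ℂ) (hz : (A : ℂ) * z ^ 4 - B * z ^ 2 + Cc = 0) :
    z.im = 0 := by
  set s : ℝ := Real.sqrt (B ^ 2 - 4 * A * Cc) with hs
  have hs0 : 0 ≤ s := Real.sqrt_nonneg _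
  have hs2 : s ^ 2 = B ^ 2 - 4 * A * Cc := Real.sq_sqrt (by linarith)
  have hsB : s ≤ B := by
    apply Real.sqrt_le_iff.mpr
    refine ⟨hB, ?_⟩
    have : 0 ≤ 4 * A * Cc := by positivity
    linarith
  have hs2c : (s : ℂ) ^ 2 = (B : ℂ) ^ 2 - 4 * A * Cc := by exact_mod_cast hs2
  have hfac : ((2 * A : ℝ) * z ^ 2 - (B + s : ℝ)) * ((2 * A : ℝ) * z ^ 2 - (B - s : ℝ)) =
      (0 : ℂ) := by
    push_cast
    linear_combination (4 * (A : ℂ)) * hz - hs2c
  have key : ∀ w : ℝ, 0 ≤ w → ((2 * A : ℝ) : ℂ) * z ^ 2 - (w : ℝ) = 0 → z.im = 0 := by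
    intro w hw h
    have hre := congrArg Complex.re h
    have him := congrArg Complex.im h
    simp only [Complex.sub_re, Complex.sub_im,
      Complex.ofReal_re, Complex.ofReal_im, pow_two, Complex.mul_re, Complex.mul_im,
      Complex.zero_re, Complex.zero_im, sub_zero] at hre him
    have h1 : z.re * z.im = 0 := by
      have : (2 * A) * (2 * (z.re * z.im)) = 0 := by linarith
      have h2 : (2 * A) ≠ 0 := by positivity
      have := (mul_eq_zero.mp this).resolve_left h2
      linarith
    rcases mul_eq_zero.mp h1 with h2 | h2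
    · rw [h2] at hre
      have h3 : 2 * A * (z.im * z.im) ≤ 0 := by nlinarith
      have h4 : z.im * z.im ≤ 0 := by
        by_contra hcon
        push Not at hcon
        have : 0 < 2 * A * (z.im * z.im) := by positivity
        linarith
      nlinarith
    · exact h2
  rcases mul_eq_zero.mp hfac with h | h
  · exact key (B + s) (by linarith) h
  · exact key (B - s) (by linarith) h

theorem opW_X_pow_hyperbolic (n : ℕ) : Hyperbolic (opW (X ^ n)) := by
  rcases n with _ | _ | _ | _ | m
  · right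
    intro z hz
    exfalso
    have h : opW (X ^ 0) = C 7 := by
      rw [opW_apply]
      simp
      rfl
    rw [h] at hz
    simp at hz
  · right
    intro z hz
    have h : opW (X ^ (0 + 1)) = C 5 * X := by
      rw [opW_apply]
      apply Polynomial.funext
      intro x
      simp
      ring
    rw [h] at hz
    simp only [map_mul, aeval_C, aeval_X, Complex.coe_algebraMap] at hz
    have h2 : z = 0 := by
      rcases mul_eq_zero.mp hz with h3 | h3
      · norm_num at h3
      · exact h3
    rw [h2]; simp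
  · right
    intro z hz
    have h : opW (X ^ (0 + 1 + 1)) = C (17 / 2) * X ^ 2 - C (7 / 4) := by
      rw [opW_apply]
      apply Polynomial.funext
      intro x
      simp
      ring
    rw [h] at hz
    simp only [map_mul, map_sub, map_pow, aeval_C, aeval_X, Complex.coe_algebraMap] at hz
    refine real_of_quartic (17 / 2) (7 / 4) 0 (by norm_num) (by norm_num) (by norm_num)
      (by norm_num) z ?_
    rw [Complex.ofReal_zero]
    linear_combination z ^ 2 * hz
  · right
    intro z hz
    have h : opW (X ^ (0 + 1 + 1 + 1)) = C 10 * X ^ 3 - C (9 / 4) * X := by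
      rw [opW_apply]
      apply Polynomial.funext
      intro x
      simp
      ring
    rw [h] at hz
    simp only [map_mul, map_sub, map_pow, aeval_C, aeval_X, Complex.coe_algebraMap] at hz
    refine real_of_quartic 10 (9 / 4) 0 (by norm_num) (by norm_num) (by norm_num)
      (by norm_num) z ?_
    rw [Complex.ofReal_zero]
    linear_combination z * hz
  · right
    intro z hz
    rw [opW_X_pow] at hz
    simp only [map_mul, map_sub, map_add, map_pow, aeval_C, aeval_X,
      Complex.coe_algebraMap] at hz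
    rcases mul_eq_zero.mp hz with h | h
    · have h2 : z = 0 := eq_zero_of_pow_eq_zero h
      rw [h2]; simp
    · refine real_of_quartic _ _ _ ?_ ?_ ?_ ?_ z h
      · positivity
      · positivity
      · positivity
      · have h5 : (((m : ℝ) + 4) ^ 2 * ((m : ℝ) + 3) / 8) ^ 2 -
          4 * ((((m : ℝ) + 4) ^ 2 + ((m : ℝ) + 4) + 28) / 4) *
            (((m : ℝ) + 4) * ((m : ℝ) + 3) * ((m : ℝ) + 2) * ((m : ℝ) + 1) / 64) =
          ((m : ℝ) + 4) * ((m : ℝ) + 3) / 64 *
            (3 * (m : ℝ) ^ 3 + 7 * (m : ℝ) ^ 2 + 46 * (m : ℝ) + 96) := by ring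
        have h6 : 0 ≤ ((m : ℝ) + 4) * ((m : ℝ) + 3) / 64 *
            (3 * (m : ℝ) ^ 3 + 7 * (m : ℝ) ^ 2 + 46 * (m : ℝ) + 96) := by positivity
        linarith

theorem hyperbolic_sq : Hyperbolic ((X + 1) ^ 2) := by
  right
  intro z hz
  simp only [map_pow, map_add, aeval_X, map_one] at hz
  have h : z + 1 = 0 := by
    have := pow_eq_zero_iff (two_ne_zero) |>.mp hz
    exact this
  have h2 : z = -1 := by linear_combination h
  rw [h2]; simp

theorem opW_sq : opW ((X + 1) ^ 2) = C (17 / 2) * X ^ 2 + C 10 * X + C (21 / 4) := by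
  rw [opW_apply]
  apply Polynomial.funext
  intro x
  simp [pow_two, derivative_mul]
  ring

theorem not_hyperbolic_opW_sq : ¬ Hyperbolic (opW ((X + 1) ^ 2)) := by
  rw [opW_sq]
  intro h
  set s : ℝ := Real.sqrt (157 / 2) with hs
  have hs2 : s ^ 2 = 157 / 2 := Real.sq_sqrt (by norm_num)
  have hs0 : 0 < s := Real.sqrt_pos.mpr (by norm_num)
  rcases h with h | h
  · have h2 := congrArg (eval 0) h
    simp at h2
  · have h3 := h ((-10 + s * Complex.I) / 17) (by
      simp only [map_mul, map_add, map_pow, aeval_C, aeval_X, Complex.coe_algebraMap]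
      have hI : Complex.I ^ 2 = -1 := Complex.I_sq
      have hs2c : (s : ℂ) ^ 2 = 157 / 2 := by
        have := congrArg (fun t : ℝ => (t : ℂ)) hs2
        simpa using this
      push_cast
      linear_combination (1 / 34 * Complex.I ^ 2) * hs2c + (157 / 68) * hI)
    have h4 : ((-10 + (s : ℂ) * Complex.I) / 17).im = s / 17 := by
      simp
    rw [h4] at h3
    linarith

theorem opT_cube : opT (X ^ 3) = X ^ 3 + C 3 * X := by
  change 7 * X ^ 3 + opN (opN (X ^ 3)) + 5 * (opN (X ^ 3)).comp (-X) = _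
  apply Polynomial.funext
  intro x
  simp [opN, derivative_mul]
  ring

theorem not_hyperbolic_opT_cube : ¬ Hyperbolic (opT (X ^ 3)) := by
  rw [opT_cube]
  intro h
  set s : ℝ := Real.sqrt 3 with hs
  have hs2 : s ^ 2 = 3 := Real.sq_sqrt (by norm_num)
  have hs0 : 0 < s := Real.sqrt_pos.mpr (by norm_num)
  rcases h with h | h
  · have h2 := congrArg (eval 1) h
    norm_num at h2
  · have h3 := h (s * Complex.I) (by
      simp only [map_mul, map_add, map_pow, aeval_C, aeval_X, Complex.coe_algebraMap]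
      have hI : Complex.I ^ 2 = -1 := Complex.I_sq
      have hs2c : (s : ℂ) ^ 2 = 3 := by
        have := congrArg (fun t : ℝ => (t : ℂ)) hs2
        simpa using this
      push_cast
      linear_combination (s * Complex.I * s ^ 2) * hI - (s * Complex.I) * hs2c)
    simp at h3
    linarith

/-- **Main theorem.** There is a Hermite diagonal operator `T = ∑ Q_k D^k`, with all eigenvalues
positive, whose rescaled operator `W = ∑ 2^{-k} Q_k D^k` maps every monomial `x^n` to a hyperbolic
polynomial but is not a hyperbolicity preserver; moreover `T[x^3]` is not hyperbolic. -/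
theorem result :
    ∃ (γ : ℕ → ℝ) (Q : ℕ → ℝ[X]) (T W : ℝ[X] →ₗ[ℝ] ℝ[X]),
      (∀ n, 0 < γ n) ∧
      (∀ n, T (hermitePoly n) = γ n • hermitePoly n) ∧
      (∀ p, T p = diffOp Q p) ∧
      (∀ p, W p = diffOp (fun k => (1 / 2 ^ k : ℝ) • Q k) p) ∧
      (∀ n, Hyperbolic (W (X ^ n))) ∧
      ¬ (∀ p, Hyperbolic p → Hyperbolic (W p)) ∧
      ¬ Hyperbolic (T (X ^ 3)) := by
  refine ⟨gam, coefQ, opT, opW, gam_pos, opT_hermitePoly, opT_eq, ?_, opW_X_pow_hyperbolic, ?_,
    not_hyperbolic_opT_cube⟩
  · intro p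
    rw [opW_eq]
    congr 1
    funext k
    rw [smul_eq_C_mul]
    congr 2
    rw [div_pow, one_pow]
  · intro h
    exact not_hyperbolic_opW_sq (h _ hyperbolic_sq)

end

end Pool.Agent.Results.MP_fcf092_an.MonomialTest
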